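import Mathlib

/-!
# Weights for the weighted `g*_λ` inequality (MP_842e08_an): definitions
-/

set_option autoImplicit false

open MeasureTheory Set Filter Topology
open scoped ENNReal NNReal Real

namespace Pool.Agent.Q64.GL

/-- A weight: a nonnegative locally integrable function on the line. -/
structure IsWeight (U : ℝ → ℝ) : Prop where
  nonneg : ∀ x, 0 ≤ U x
  loc : LocallyIntegrable U volume

/-- The class `A_p`. -/
def A (p : ℝ) (U : ℝ → ℝ) : Prop := ∃ C : ℝ≥0, ∀ a b : ℝ, a < b →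
  ((ENNReal.ofReal (b - a))⁻¹ * ∫⁻ x in Icc a b, ENNReal.ofReal (U x)) *
    ((ENNReal.ofReal (b - a))⁻¹ *
      ∫⁻ x in Icc a b, ENNReal.ofReal (U x) ^ (-1 / (p - 1))) ^ (p - 1) ≤ C

/-- The class `B_r`: `∫ |I|^(r-1) U(x) / (|I|^r + |x - x_I|^r) dx ≤ C / |I| ∫_I U` for all
intervals `I` (centre `x_I = a`, length `|I| = l`). -/
def B (r : ℝ) (U : ℝ → ℝ) : Prop := ∃ C : ℝ≥0, ∀ a l : ℝ, 0 < l →
  ∫⁻ x, ENNReal.ofReal (l ^ (r - 1) * U x / (l ^ r + |x - a| ^ r)) ≤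
    C / ENNReal.ofReal l * ∫⁻ x in Icc (a - l / 2) (a + l / 2), ENNReal.ofReal (U x)

/-- The Poisson integral `f(z,y) = (1/π) ∫ y f(z - x) / (x² + y²) dx`. -/
noncomputable def poisson (f : ℝ → ℝ) (z y : ℝ) : ℝ :=
  (1 / π) * ∫ x, y * f (z - x) / (x ^ 2 + y ^ 2)

/-- `|∇f(z,y)|²`, the gradient in `(z,y)` of the Poisson integral. -/
noncomputable def gradSq (f : ℝ → ℝ) (z y : ℝ) : ℝ :=
  deriv (fun s => poisson f s y) z ^ 2 + deriv (fun t => poisson f z t) y ^ 2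

/-- The function `g*_λ(f)`, with values in `[0,∞]`. -/
noncomputable def gStar (lam : ℝ) (f : ℝ → ℝ) (x : ℝ) : ℝ≥0∞ :=
  (∫⁻ z, ∫⁻ y in Ioi (0 : ℝ),
    ENNReal.ofReal ((y / (|x - z| + y)) ^ lam * gradSq f z y)) ^ (1 / 2 : ℝ)

/-- The inequality `(∗)`: `∫ g*_λ(f)^p U ≤ C ∫ |f|^p U` for all `f` with finite right side. -/
def Star (lam p : ℝ) (U : ℝ → ℝ) : Prop := ∃ C : ℝ≥0, ∀ f : ℝ → ℝ, AEMeasurable f volume →
  ∫⁻ x, ENNReal.ofReal (|f x| ^ p * U x) < ∞ →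
  ∫⁻ x, gStar lam f x ^ p * ENNReal.ofReal (U x) ≤
    C * ∫⁻ x, ENNReal.ofReal (|f x| ^ p * U x)

/-! ## Auxiliary objects -/

/-- The integral over the open interval with centre `z` and radius `y`. -/
noncomputable def m (u : ℝ → ℝ≥0∞) (z y : ℝ) : ℝ≥0∞ := ∫⁻ x in Ioo (z - y) (z + y), u x

/-- The kernel `(y/(|x-z|+y))^r`. -/
noncomputable def ker (r x z y : ℝ) : ℝ := (y / (|x - z| + y)) ^ r

/-- `u` is a positive finite measurable `A_p` weight with constant `Q`. -/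
structure APd (p : ℝ) (u : ℝ → ℝ≥0∞) (Q : ℝ≥0) : Prop where
  meas : Measurable u
  pos : ∀ x, u x ≠ 0
  fin : ∀ x, u x ≠ ∞
  loc : ∀ z y, m u z y ≠ ∞
  ap : ∀ z y, 0 < y →
    m u z y * m (fun x => u x ^ (-1 / (p - 1))) z y ^ (p - 1) ≤ Q * ENNReal.ofReal (2 * y) ^ p

/-- The condition `B_r` in the form used in the proofs. -/
def Tail (r : ℝ) (u : ℝ → ℝ≥0∞) (T : ℝ≥0) : Prop := ∀ z y : ℝ, 0 < y →
  ∫⁻ x, ENNReal.ofReal (ker r x z y) * u x ≤ T * m u z y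

/-- Polynomial growth of the masses with exponent `q`. -/
def Growth (q : ℝ) (u : ℝ → ℝ≥0∞) (D : ℝ≥0) : Prop := ∀ z y t : ℝ, 0 < y → 1 ≤ t →
  m u z (t * y) ≤ D * ENNReal.ofReal (t ^ q) * m u z y

/-- The uncentered maximal function with respect to a measure. -/
noncomputable def MF (μ : Measure ℝ) (g : ℝ → ℝ≥0∞) (x : ℝ) : ℝ≥0∞ :=
  ⨆ (z : ℝ) (y : ℝ) (_ : 0 < y) (_ : x ∈ Ioo (z - y) (z + y)),
    (∫⁻ t in Ioo (z - y) (z + y), g t ∂μ) / μ (Ioo (z - y) (z + y))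

/-- The tangential maximal function. -/
noncomputable def TM (a : ℝ) (f : ℝ → ℝ≥0∞) (x : ℝ) : ℝ≥0∞ :=
  ⨆ (z : ℝ) (y : ℝ) (_ : 0 < y),
    ENNReal.ofReal (ker a x z y) * (m f z y / ENNReal.ofReal (2 * y))

/-- Second derivative in the first variable. -/
noncomputable def dzz (B : ℝ × ℝ → ℝ) (z y : ℝ) : ℝ := deriv (deriv (fun s => B (s, y))) z

/-- Second derivative in the second variable. -/
noncomputable def dyy (B : ℝ × ℝ → ℝ) (z y : ℝ) : ℝ := deriv (deriv (fun t => B (z, t))) y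

/-- The upper half-plane. -/
def HP : Set (ℝ × ℝ) := {q | 0 < q.2}

end Pool.Agent.Q64.GL
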