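import Pool.Agent.Q64.GL.TwoB

/-!
# Final assembly
-/

set_option autoImplicit false

open MeasureTheory Set Filter Topology
open scoped ENNReal NNReal Real

namespace Pool.Agent.Q64.GL

theorem ofReal_weight {p : ℝ} (hp : 0 ≤ p) {a b : ℝ} :
    ENNReal.ofReal (|a| ^ p * b) = ENNReal.ofReal |a| ^ p * ENNReal.ofReal b := by
  rw [ENNReal.ofReal_mul (by positivity), ENNReal.ofReal_rpow_of_nonneg (abs_nonneg a) hp]

/-- sufficiency -/
theorem suff (hSUF : S_SUF) (hTR : S_TR) {lam p : ℝ} (hl : 0 < lam) (hp1 : 1 < p) (hp2 : p < 2)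
    (hlp : 1 < lam * p / 2) {U : ℝ → ℝ} (hU : IsWeight U) (hU0 : ¬ (U =ᵐ[volume] 0))
    (hA : A p U) (hB : B (lam * p / 2) U) :
    ∃ C : ℝ≥0, ∀ f : ℝ → ℝ, AEMeasurable f volume →
      ∫⁻ x, ENNReal.ofReal (|f x| ^ p * U x) < ∞ →
      Integrable (fun x => f x / (1 + x ^ 2)) volume ∧
      ∫⁻ x, gStar lam f x ^ p * ENNReal.ofReal (U x) ≤
        C * ∫⁻ x, ENNReal.ofReal (|f x| ^ p * U x) := by
  have hp0 : 0 ≤ p := by linarith
  obtain ⟨u, Q, T, D, q, hu, hAP, hT, hq0, hq, hD⟩ := hTR p (lam * p / 2) U hp1 hlp hU hU0 hA hB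
  obtain ⟨C, hC⟩ := hSUF p lam q hp1 hp2 hl hq0 hq Q T D
  refine ⟨C, fun f hf hfin => ?_⟩
  obtain ⟨g, hg, hfg⟩ := hf
  have e1 : ∫⁻ x, ENNReal.ofReal (|f x| ^ p * U x) = ∫⁻ x, ENNReal.ofReal |g x| ^ p * u x := by
    refine lintegral_congr_ae ?_
    filter_upwards [hu, hfg] with x hx hx2
    rw [ofReal_weight hp0, hx, hx2]
  have e2 : ∫⁻ x, gStar lam f x ^ p * ENNReal.ofReal (U x) = ∫⁻ x, gStar lam g x ^ p * u x := by
    refine lintegral_congr_ae ?_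
    filter_upwards [hu] with x hx
    rw [gStar_congr hfg, hx]
  rw [e1] at hfin
  obtain ⟨h1, h2⟩ := hC u hAP hT hD g hg (ne_of_lt hfin)
  refine ⟨?_, ?_⟩
  · refine h1.congr ?_
    filter_upwards [hfg] with x hx
    simp only [hx]
  · rw [e1, e2]
    exact h2

theorem final (hSUF : S_SUF) (hTR : S_TR) (hNEC : S_NEC) (lam p : ℝ) (hl1 : 1 < lam)
    (hl2 : lam ≤ 2) (hp1 : 2 / lam < p) (hp2 : p < 2) (U : ℝ → ℝ) (hU : IsWeight U) :
    (Star lam p U ↔ A p U ∧ B (lam * p / 2) U) ∧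
    (Star lam p U → ¬ (U =ᵐ[volume] 0) → ∀ f : ℝ → ℝ, AEMeasurable f volume →
      ∫⁻ x, ENNReal.ofReal (|f x| ^ p * U x) < ∞ →
      Integrable (fun x => f x / (1 + x ^ 2)) volume) := by
  have hl : 0 < lam := by linarith
  have h2l : 1 ≤ 2 / lam := by
    rw [le_div_iff₀ hl]
    linarith
  have hp : 1 < p := by linarith
  have hlp : 1 < lam * p / 2 := by
    rw [div_lt_iff₀ hl] at hp1
    linarith
  have hnec : Star lam p U → A p U ∧ B (lam * p / 2) U := hNEC lam p U hl hp hU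
  refine ⟨⟨hnec, fun h => ?_⟩, fun h h0 f hf hfin => ?_⟩
  · by_cases h0 : U =ᵐ[volume] 0
    · refine ⟨0, fun f _ _ => ?_⟩
      have : ∫⁻ x, gStar lam f x ^ p * ENNReal.ofReal (U x) = 0 := by
        rw [← lintegral_zero (μ := (volume : Measure ℝ))]
        refine lintegral_congr_ae ?_
        filter_upwards [h0] with x hx
        rw [hx]
        simp
      rw [this]
      exact bot_le
    · obtain ⟨C, hC⟩ := suff hSUF hTR hl hp hp2 hlp hU h0 h.1 h.2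
      exact ⟨C, fun f hf hfin => (hC f hf hfin).2⟩
  · obtain ⟨hA, hB⟩ := hnec h
    obtain ⟨C, hC⟩ := suff hSUF hTR hl hp hp2 hlp hU h0 hA hB
    exact (hC f hf hfin).1

end Pool.Agent.Q64.GL
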