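import Pool.Agent.Q64.GL.Defs

/-!
# Project GL (helper64): full characterisation of the weights in MP_842e08_an

`(∗)  ∫ g*_λ(f)^p U ≤ C ∫ |f|^p U` holds if and only if `U ∈ A_p ∩ B_{λp/2}`
(`1 < λ ≤ 2`, `2/λ < p < 2`). Each `S_...` below is one lemma job; the docstring is the proof.

Sufficiency. `p = 2`, `w ∈ A_2`: with the Poisson integrals `F, W, V` of `f, w, 1/w` the function
`F²/(2V - 1/(W²V))` is a majorised subharmonic function whose Laplacian is `≥ c W |∇F|²` (BEL, GRN, L2).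
`p < 2`: Rubio de Francia with the tangential maximal function
`TM f x = sup_{z,y} (y/(|x-z|+y))^{λ/2} · (average of f over (z-y,z+y))`, bounded on `L^p(U)` (MAX, TMB), which
turns `U` into `U R^{p-2} ∈ A_2 ∩ B_λ` (RDF, WW).
-/

set_option autoImplicit false

open MeasureTheory Set Filter Topology
open scoped ENNReal NNReal Real

namespace Pool.Agent.Q64.GL

/-- **MAX**: the uncentered maximal function with respect to an arbitrary locally finite measure on the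
line is bounded on `L^r`, `r > 1`, with a constant depending only on `r`.
Proof. `E_t = {x | t < MF μ g x}` is the union of the open intervals `I` with `t μ(I) < ∫_I g dμ`
(note `0/0 = 0`; `a/b > t` with `b < ∞` gives `a > t b`), so it is open and `MF μ g` is lower
semicontinuous, hence measurable. Weak type: `t μ(E_t) ≤ 2 ∫_{E_t} g dμ`: for a compact `K ⊆ E_t` take
finitely many such intervals covering `K` and (minimal subcover: induct on the number of intervals, drop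
an interval contained in the union of the others; in a minimal family of intervals no point lies in
three) intervals with overlap at most two and the same union; then
`t μ(K) ≤ ∑ ∫_{I_j} g ≤ 2 ∫_{E_t} g`. Inner regularity (`IsOpen.measure_eq_iSup_isCompact`; the measure
is locally finite). Strong type: `g ≤ g 1_{g > t/2} + t/2`, so `MF g ≤ MF (g 1_{g>t/2}) + t/2` and
`t μ(MF g > t) ≤ 2·(t/2)·μ(MF (g 1_{g>t/2}) > t/2) ≤ 4 ∫_{g > t/2} g dμ`. With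
`a^r = ∫⁻_{t>0, t<a} r t^{r-1} dt` for every `a ∈ [0,∞]` and Tonelli (`μ` is s-finite)
`∫ MF^r = ∫_0^∞ r t^{r-1} μ(MF > t) dt ≤ ∫ g ∫_{0<t<2g} 4 r t^{r-2} dt dμ = 4r/(r-1) 2^{r-1} ∫ g^r`. -/
def S_MAX : Prop := ∀ r : ℝ, 1 < r → ∃ C : ℝ≥0, ∀ μ : Measure ℝ,
  (∀ z y : ℝ, μ (Ioo (z - y) (z + y)) ≠ ∞) → ∀ g : ℝ → ℝ≥0∞, Measurable g →
    Measurable (MF μ g) ∧ ∫⁻ x, MF μ g x ^ r ∂μ ≤ C * ∫⁻ x, g x ^ r ∂μ

/-- **TMM**: simple properties of the tangential maximal function.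
Proof. For fixed `z, y` the function `x ↦ ker a x z y` is continuous, so `TM a f` is a supremum of
continuous functions (lower semicontinuous, measurable; `m f z y/(2y) = ∞` is harmless: the kernel is
positive and the term is constantly `∞`). Sums: `m (∑' f n) z y = ∑' m (f n) z y` (`lintegral_tsum`), the
supremum of a sum is at most the sum of the suprema. Constants pull out. If `f` is not a.e. zero then
`m f 0 y ≠ 0` for some large `y`. -/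
def S_TMM : Prop := ∀ a : ℝ, 0 < a →
  (∀ f : ℝ → ℝ≥0∞, Measurable (TM a f)) ∧
  (∀ f : ℕ → ℝ → ℝ≥0∞, (∀ n, Measurable (f n)) → ∀ x,
    TM a (fun x => ∑' n, f n x) x ≤ ∑' n, TM a (f n) x) ∧
  (∀ (c : ℝ≥0∞) (f : ℝ → ℝ≥0∞), Measurable f → c ≠ ∞ → ∀ x,
    TM a (fun x => c * f x) x ≤ c * TM a f x) ∧
  (∀ f : ℝ → ℝ≥0∞, Measurable f → ¬ (f =ᵐ[volume] 0) → ∀ x, TM a f x ≠ 0)

/-- **TMB**: the tangential maximal function is bounded on `L^p(u)` for `u ∈ A_p` of growth `q < a p`.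
Proof (Lerner). Let `σ = u^{-1/(p-1)}`, `μ = u dx`, `ν = σ dx` (`volume.withDensity`; finite on intervals:
`m u < ∞`, and `m σ < ∞` by `ap` since `m u > 0`), `G = MF ν (f/σ)`, `H = G^{p-1}/u`,
`s = max 1 (q/(a(p-1)))`, so `1 ≤ s < p' = p/(p-1)`. Let `J = (z-y,z+y)`, `x` any point, `t = (|x-z|+y)/y ≥ 1`,
`J' = (z-ty,z+ty) ∋ x`. For `x' ∈ J`: `∫_J f = ∫_J (f/σ) dν ≤ ν(J) G(x')`. Hence
`(∫_J f/|J|)^{p-1} μ(J) ≤ (ν(J)/|J|)^{p-1} μ(J) G(x')^{p-1} ≤ Q |J| G(x')^{p-1}`; integrate over `x' ∈ J`: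
`(∫_J f/|J|)^{p-1} ≤ Q μ(J)⁻¹ ∫_J G^{p-1} dx = Q μ(J)⁻¹ ∫_J H dμ ≤ Q (μ(J)⁻¹ ∫_J H^s dμ)^{1/s}
≤ Q (D t^q μ(J')⁻¹ ∫_{J'} H^s dμ)^{1/s} ≤ Q D^{1/s} t^{q/s} (MF μ (H^s) x)^{1/s}`, and
`t^{-a(p-1)} t^{q/s} ≤ 1`, so `(TM a f x)^{p-1} ≤ Q D^{1/s} (MF μ (H^s) x)^{1/s}`. Raise to the power `p' = p/(p-1)`,
integrate with `μ`, MAX with `r = p'/s > 1` for `μ`, then `∫ H^{p'} dμ = ∫ G^p u^{1-p'} = ∫ G^p dν` and MAX with
`r = p` for `ν`: `≤ C ∫ (f/σ)^p σ = C ∫ f^p u` (`σ^{1-p} = u`). -/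
def S_TMB : Prop := ∀ p a q : ℝ, 1 < p → 0 < a → 0 < q → q < a * p → ∀ Q D : ℝ≥0, ∃ C : ℝ≥0,
  ∀ u : ℝ → ℝ≥0∞, APd p u Q → Growth q u D → ∀ f : ℝ → ℝ≥0∞, Measurable f →
    ∫⁻ x, TM a f x ^ p * u x ≤ C * ∫⁻ x, f x ^ p * u x

/-- **RDF**: Rubio de Francia's algorithm. Proof. `N = C^{1/p} + 1`, `g_n = N^{-n} (TM a)^n f`,
`R = ∑' 2^{-n} g_n`. `TM a R ≤ ∑' 2^{-n} TM a g_n = ∑' 2^{-n} N g_{n+1} ≤ 2 N R` by TMM. `∫ g_n^p u ≤ ∫ f^p u`;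
`R^p ≤ 2^{p-1} ∑' 2^{-n} g_n^p` (Hölder/Jensen with the weights `2^{-n}`, total mass 2: for finite partial sums
`ENNReal.inner_le_Lp_mul_Lq`, then the supremum), so `∫ R^p u ≤ 2^p ∫ f^p u`. `K = 2N + 2^p`. -/
def S_RDF : Prop := ∀ p a : ℝ, 1 < p → 0 < a → ∀ C : ℝ≥0, ∃ K : ℝ≥0, ∀ u : ℝ → ℝ≥0∞, Measurable u →
  (∀ f : ℝ → ℝ≥0∞, Measurable f → ∫⁻ x, TM a f x ^ p * u x ≤ C * ∫⁻ x, f x ^ p * u x) →
  ∀ f : ℝ → ℝ≥0∞, Measurable f → ∃ R : ℝ → ℝ≥0∞, Measurable R ∧ (∀ x, f x ≤ R x) ∧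
    (∀ x, TM a R x ≤ K * R x) ∧ ∫⁻ x, R x ^ p * u x ≤ K * ∫⁻ x, f x ^ p * u x

/-- **WW**: `w = u R^{p-2}` is in `A_2` and satisfies the tail condition with exponent `λ`.
Proof. `a = λ/2`, `J = (z-y,z+y)`, `M = m R z y / (2y)` (the average of `R`; `0 < M < ∞`),
`σ = u^{-1/(p-1)}`. For a.e. `x`: `ker a x z y · M ≤ K R(x)`. (i) on `J`: `ker a x z y ≥ 2^{-a}`, so
`w = u R^{p-2} ≤ (2^a K)^{2-p} M^{p-2} u` and `w(J) ≤ (2^a K)^{2-p} M^{p-2} u(J)`; by Hölder with the exponents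
`1/(p-1)`, `1/(2-p)`: `∫_J w⁻¹ = ∫_J u⁻¹ R^{2-p} ≤ σ(J)^{p-1} (2yM)^{2-p}`. The product is at most
`(2^a K)^{2-p} Q (2y)^p (2y)^{2-p}`. (ii) `(2y)² ≤ w(J) ∫_J w⁻¹ ≤ w(J) σ(J)^{p-1} (2yM)^{2-p}` and
`u(J) σ(J)^{p-1} ≤ Q (2y)^p` give `u(J) M^{p-2} ≤ Q w(J)`. (iii)
`∫ ker λ x z y · u R^{p-2} ≤ K^{2-p} M^{p-2} ∫ ker (λ - a(2-p)) x z y · u`, and `λ - a(2-p) = λp/2`, so this is
`≤ K^{2-p} M^{p-2} T u(J) ≤ K^{2-p} T Q w(J)`. (`-1/(2-1) = -1`; if `K = 0` replace it by `K + 1`.) -/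
def S_WW : Prop := ∀ p lam : ℝ, 1 < p → p < 2 → 0 < lam → ∀ Q T K : ℝ≥0, ∃ Q' : ℝ≥0,
  ∀ u R : ℝ → ℝ≥0∞, APd p u Q → Tail (lam * p / 2) u T → Measurable R → (∀ x, R x ≠ 0) →
    (∀ x, R x ≠ ∞) → (∀ z y, m R z y ≠ ∞) → (∀ᵐ x, TM (lam / 2) R x ≤ K * R x) →
    APd 2 (fun x => u x * R x ^ (p - 2)) Q' ∧ Tail lam (fun x => u x * R x ^ (p - 2)) Q'

/-- **AB**: `A_2 ⊆ B_2`. Proof. Let `v = w⁻¹` (`v = w^{-1/(2-1)}`), `J_k = (z - 2^k y, z + 2^k y)`.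
`(2y)² ≤ w(J) v(J)` (Cauchy-Schwarz) and `w(J) v(J) ≤ Q (2y)²` for all `J`. Doubling:
`|J|² ≤ w(J) v(J) ≤ w(J) v(2J) ≤ w(J) Q |2J|²/w(2J)`, so `w(2J) ≤ 4Q w(J)`; the same for `v`, and for all
`J ⊆ J*`, `|J*| ≤ 8|J|`: `w(J*) ≤ 64 Q w(J)`. Reverse doubling: `(z+y, z+2y)` is disjoint from `J`, contained in
`2J`, so `v(2J) ≥ (1+δ) v(J)`, `δ = 1/(64Q)` (or so), `v(J_k) ≥ (1+δ)^k v(J)`. Hence
`w(J_k) ≤ Q 4^k |J|²/v(J_k) ≤ Q 4^k (1+δ)^{-k} |J|²/v(J) ≤ Q 4^k (1+δ)^{-k} w(J)`. Finally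
`ker 2 x z y ≤ ∑_k 4^{-(k-1)} 1_{J_k}(x)` and `∑ 4·(1+δ)^{-k} Q < ∞`. Statement for `w` and for `w⁻¹`
(which is `APd 2` with the same constant: the condition is symmetric; its loc from `m w ≠ 0`). -/
def S_AB : Prop := ∀ Q : ℝ≥0, ∃ T : ℝ≥0, ∀ w : ℝ → ℝ≥0∞, APd 2 w Q →
  Tail 2 w T ∧ Tail 2 (fun x => (w x)⁻¹) T ∧ (∀ z y, m (fun x => (w x)⁻¹) z y ≠ ∞)

/-- **POI**: the Poisson integral is the imaginary part of a holomorphic function.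
Proof. `G ζ = (1/π) ∫ f(x) (1/(x-ζ) - x/(1+x²)) dx`. With `ζ = z + iy`:
`Im (1/(x-ζ)) = y/((x-z)²+y²)`, and `poisson f z y = (1/π) ∫ y f(x)/((x-z)²+y²) dx` by the substitution
`x ↦ z - x`. `1/(x-ζ) - x/(1+x²) = (1+xζ)/((x-ζ)(1+x²))`, of absolute value `≤ C_K/(1+x²)` for `ζ` in a compact
set `K` of the half-plane; derivative `1/(x-ζ)² ≤ C_K/(1+x²)`: `hasDerivAt_integral_of_dominated_loc_of_deriv_le`.
The second part follows: `∂_z poisson = Im G'`, `∂_y poisson = Re G'` (as `∂_y G = i G'`). -/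
def S_POI : Prop := ∀ f : ℝ → ℝ, Integrable (fun x => f x / (1 + x ^ 2)) volume →
  ∃ G : ℂ → ℂ, DifferentiableOn ℂ G {ζ : ℂ | 0 < ζ.im} ∧
    (∀ z y : ℝ, 0 < y → poisson f z y = (G ⟨z, y⟩).im) ∧
    (∀ z y : ℝ, 0 < y → HasDerivAt (fun s => poisson f s y) (deriv G ⟨z, y⟩).im z ∧
      HasDerivAt (fun t => poisson f z t) (deriv G ⟨z, y⟩).re y ∧
      gradSq f z y = ‖deriv G ⟨z, y⟩‖ ^ 2)

/-- **HAR**: consequences: smooth and harmonic. Proof: from POI; `G` is analytic on the open half-plane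
(`DifferentiableOn.analyticOn`/`contDiffOn`), `(z,y) ↦ ⟨z,y⟩` is real linear, `G'' ` holomorphic:
`∂_zz = Im G''`, `∂_yy = ∂_y Re G' = Re (i G'') = -Im G''`. -/
def S_HAR : Prop := ∀ f : ℝ → ℝ, Integrable (fun x => f x / (1 + x ^ 2)) volume →
  ContDiffOn ℝ 2 (fun q : ℝ × ℝ => poisson f q.1 q.2) HP ∧
  (∀ z y : ℝ, 0 < y → dzz (fun q => poisson f q.1 q.2) z y + dyy (fun q => poisson f q.1 q.2) z y = 0)

/-- **PK**: positivity, Cauchy-Schwarz and mass of Poisson integrals.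
Proof. `poisson f z y = (1/π) ∫ y f(x)/((x-z)²+y²) dx`, kernel comparable to `1/(1+x²)`. (1) positive kernel, positive
function. (2) Cauchy-Schwarz for `f = (f √w)(1/√w)`: `F² ≤ P[f² w] P[1/w]`; integrability of `f/(1+x²)` likewise
(`|f| ≤ (f² w + 1/w)/2`). (3) Cauchy-Schwarz: `1 = P[1] ≤ P[w] P[1/w]`. (4) Tonelli,
`(1/π)∫ y/((x-z)²+y²) dz = 1`. -/
def S_PK : Prop := (∀ w : ℝ → ℝ, Measurable w → (∀ x, 0 < w x) →
    Integrable (fun x => w x / (1 + x ^ 2)) volume → ∀ z y : ℝ, 0 < y → 0 < poisson w z y) ∧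
  (∀ w f : ℝ → ℝ, Measurable w → (∀ x, 0 < w x) → Measurable f →
    Integrable (fun x => (w x)⁻¹ / (1 + x ^ 2)) volume → Integrable (fun x => f x ^ 2 * w x) volume →
    Integrable (fun x => f x / (1 + x ^ 2)) volume ∧
    (∀ z y : ℝ, 0 < y → poisson f z y ^ 2 ≤
      poisson (fun x => f x ^ 2 * w x) z y * poisson (fun x => (w x)⁻¹) z y)) ∧
  (∀ w : ℝ → ℝ, Measurable w → (∀ x, 0 < w x) →
    Integrable (fun x => w x / (1 + x ^ 2)) volume →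
    Integrable (fun x => (w x)⁻¹ / (1 + x ^ 2)) volume →
    ∀ z y : ℝ, 0 < y → 1 ≤ poisson w z y * poisson (fun x => (w x)⁻¹) z y) ∧
  (∀ h : ℝ → ℝ, Measurable h → (∀ x, 0 ≤ h x) → Integrable h volume → ∀ y : ℝ, 0 < y →
    ∫⁻ z, ENNReal.ofReal (poisson h z y) = ENNReal.ofReal (∫ x, h x))

/-- **BEL1**: one variable computation for `F²/(2V - 1/(W²V))`. `F' , F''` etc. are the first and second
derivatives at the point `s`. Proof. With `g = 1/(W²V)`, `η = 2V - g`, `a = W'/W`, `b = V'/V`: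
`g' = -g(2a+b)`, `g'' = g((2a+b)² + 2a² + b² - 2W''/W - V''/V)`, `(F²/η)'' = (2/η)(F' - Fη'/η)² + 2FF''/η - F²η''/η²`.
So the second derivative minus the terms linear in `F'', W'', V''` is
`(2/η)(F' - Fη'/η)² + (F²/η²) g ((2a+b)²+2a²+b²)`. As `1 ≤ WV ≤ Q`: `g ≤ V` (so `V ≤ η ≤ 2V`), `g ≥ V/Q²`,
`|η'| = |2Vb + g(2a+b)| ≤ V(3|b| + 2|a|)`, so `η'² ≤ 11 V² (b² + 2a²)`, and the second term is
`≥ (F²/η²)(V/Q²) η'²/(11V²) ≥ κ F² η'²/η³`, `κ = 1/(11Q²)` (`1/V ≥ 1/η`). With `X = F'`, `Y = Fη'/η`: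
`(1/η)(2(X-Y)² + κY²) ≥ (1/η)(2κ/(2+κ)) X² ≥ (κ/3) X² /(2V) ≥ (κ/(6Q)) W X²`. -/
def S_BEL1 : Prop := ∀ Q : ℝ, 1 ≤ Q → ∃ c : ℝ, 0 < c ∧ ∀ (F W V F1 W1 V1 : ℝ → ℝ) (F2 W2 V2 s : ℝ),
  (∀ᶠ t in 𝓝 s, HasDerivAt F (F1 t) t) → (∀ᶠ t in 𝓝 s, HasDerivAt W (W1 t) t) →
  (∀ᶠ t in 𝓝 s, HasDerivAt V (V1 t) t) → HasDerivAt F1 F2 s → HasDerivAt W1 W2 s →
  HasDerivAt V1 V2 s → (∀ᶠ t in 𝓝 s, 0 < W t) → (∀ᶠ t in 𝓝 s, 0 < V t) →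
  (∀ᶠ t in 𝓝 s, 1 ≤ W t * V t) → W s * V s ≤ Q →
  c * W s * F1 s ^ 2 ≤
    deriv (deriv (fun t => F t ^ 2 / (2 * V t - 1 / (W t ^ 2 * V t)))) s
    - 2 * F s / (2 * V s - 1 / (W s ^ 2 * V s)) * F2
    + F s ^ 2 / (2 * V s - 1 / (W s ^ 2 * V s)) ^ 2 *
      (2 * V2 + 1 / (W s ^ 2 * V s) * (2 * W2 / W s + V2 / V s))

/-- **GRN**: a Green formula. Proof. `a(y) = y (1 - y/M)³` on `[0,M]`: `a(0) = a(M) = a'(M) = 0`, `a'(0) = 1`,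
`0 ≤ a ≤ M`, `|a''| ≤ 6/M·...` with `∫_0^M |a''| ≤ 6`. `φ_R(z) = φ(z/R)`, `φ` a fixed smooth compactly supported bump,
`0 ≤ φ ≤ 1`, `φ = 1` on `[-1,1]`, `|φ''| ≤ C₀`. For `ε > 0` and fixed `z`, integrating by parts twice,
`∫_0^M a(y) B_yy(z,y+ε) dy = B(z,ε) + ∫_0^M a''(y) B(z,y+ε) dy`; for fixed `y`:
`∫ φ_R B_zz(z,y+ε) dz = ∫ φ_R'' B(z,y+ε) dz`. Everything is continuous with compact support in `z` and `y+ε ≥ ε`,
so Fubini is free: `∫∫ a φ_R (B_zz+B_yy)(z,y+ε) = ∫ φ_R B(z,ε) dz + ∫∫ a'' φ_R B + ∫∫ a φ_R'' B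
≤ N + 6N + C₀ M² N/R²`, because `0 ≤ B ≤ H` and `∫ H(z,y) dz ≤ N` for every `y > 0`. The left side is at least
`∫∫ a φ_R D(z,y+ε)`. Let `R → ∞`, `M → ∞`, `ε → 0` (Fatou: `liminf` of `a(y-ε) D(z,y) 1_{y>ε}` is `y D(z,y)`;
integrate first over `y` after the substitution). Constant 7. -/
def S_GRN : Prop := ∀ (B D : ℝ × ℝ → ℝ) (N : ℝ≥0), ContDiffOn ℝ 2 B HP → Measurable D →
  (∀ q ∈ HP, 0 ≤ B q) → (∀ q ∈ HP, 0 ≤ D q) →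
  (∀ z y : ℝ, 0 < y → D (z, y) ≤ dzz B z y + dyy B z y) →
  (∀ y : ℝ, 0 < y → ∫⁻ z, ENNReal.ofReal (B (z, y)) ≤ N) →
  ∫⁻ z, ∫⁻ y in Ioi (0 : ℝ), ENNReal.ofReal (y * D (z, y)) ≤ 7 * N

/-- **L2**: the weighted `L²` inequality. Assembly of AB, HAR, POI, PK, BEL1, GRN. Proof. `w ∈ A_2`: by AB
`π P[w](z,y) = ∫ y w/((x-z)²+y²) ≤ (2/y) ∫ ker 2 x z y · w ≤ (2T/y) w(J)` (`y²/(d²+y²) ≤ 2 (y/(d+y))²`) and the same for
`1/w`, so `1 ≤ P[w] P[1/w] ≤ Q'` (`w(J) w⁻¹(J) ≤ Q (2y)²`) and `w/(1+x²)`, `w⁻¹/(1+x²)` are integrable. `F = P[f]`, `W = P[w]`,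
`V = P[1/w]`, `H = P[f² w]`; `B = F²/(2V - 1/(W²V)) ≤ F²/V ≤ H`; BEL1 in the directions `z` and `y`, added, with
harmonicity (the linear terms cancel): `ΔB ≥ c W |∇F|²`; GRN with `D = c W gradSq f`. -/
def S_L2 : Prop := ∀ Q : ℝ≥0, ∃ C : ℝ≥0, ∀ w : ℝ → ℝ, Measurable w → (∀ x, 0 < w x) →
  APd 2 (fun x => ENNReal.ofReal (w x)) Q → ∀ f : ℝ → ℝ, Measurable f →
  ∫⁻ x, ENNReal.ofReal (f x ^ 2 * w x) ≠ ∞ →
    Integrable (fun x => f x / (1 + x ^ 2)) volume ∧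
    ∫⁻ z, ∫⁻ y in Ioi (0 : ℝ), ENNReal.ofReal (gradSq f z y) * m (fun x => ENNReal.ofReal (w x)) z y ≤
      C * ∫⁻ x, ENNReal.ofReal (f x ^ 2 * w x)

/-- **G2**: the case `p = 2` of the theorem. Proof from L2: Tonelli,
`∫ g*² w = ∫_z ∫_y gradSq f z y ∫_x ker λ x z y w(x) ≤ T ∫_z ∫_y gradSq f z y · m w z y` (Tail). Measurability of
`(z,y) ↦ gradSq f z y` on the half-plane from POI (continuous there). -/
def S_G2 : Prop := ∀ lam : ℝ, 0 < lam → ∀ Q T : ℝ≥0, ∃ C : ℝ≥0, ∀ w : ℝ → ℝ≥0∞, APd 2 w Q →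
  Tail lam w T → ∀ f : ℝ → ℝ, Measurable f → ∫⁻ x, ENNReal.ofReal |f x| ^ 2 * w x ≠ ∞ →
    Integrable (fun x => f x / (1 + x ^ 2)) volume ∧
    ∫⁻ x, gStar lam f x ^ (2 : ℝ) * w x ≤ C * ∫⁻ x, ENNReal.ofReal |f x| ^ 2 * w x

/-- **SUF**: sufficiency for good weights. Proof (extrapolation). `a = λ/2`. TMB (`q < a p = λp/2`) and RDF give for
`|f| ∈ L^p(u)` a majorant `R`, `TM a R ≤ K R`, `∫ R^p u ≤ K ∫ |f|^p u`; if `f = 0` a.e. then `gStar = 0`; otherwise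
`R ≥ K⁻¹ TM a R > 0`, and `R < ∞` a.e.; change `R` to `1` on the null set `R = ∞`; `m R z y < ∞` by Hölder
(`∫_J R ≤ (∫ R^p u)^{1/p} σ(J)^{1/p'}`). WW: `w = u R^{p-2}` satisfies the hypotheses of G2, and
`∫ f² w ≤ ∫ |f|^p u` as `R ≥ |f|`. By Hölder with `2/p`, `2/(2-p)`:
`∫ g*^p u = ∫ (g*² u R^{p-2})^{p/2} (R^p u)^{(2-p)/2} ≤ (∫ g*² w)^{p/2} (∫ R^p u)^{(2-p)/2} ≤ C ∫ |f|^p u`. -/
def S_SUF : Prop := ∀ p lam q : ℝ, 1 < p → p < 2 → 0 < lam → 0 < q → q < lam * p / 2 →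
  ∀ Q T D : ℝ≥0, ∃ C : ℝ≥0, ∀ u : ℝ → ℝ≥0∞, APd p u Q → Tail (lam * p / 2) u T → Growth q u D →
    ∀ f : ℝ → ℝ, Measurable f → ∫⁻ x, ENNReal.ofReal |f x| ^ p * u x ≠ ∞ →
      Integrable (fun x => f x / (1 + x ^ 2)) volume ∧
      ∫⁻ x, gStar lam f x ^ p * u x ≤ C * ∫⁻ x, ENNReal.ofReal |f x| ^ p * u x

/-- **TR**: translation of the hypotheses. Proof. `U` is a.e. strongly measurable and not a.e. zero; `A p U` on large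
intervals gives `U > 0` a.e. (otherwise `∫_I U^{-1/(p-1)} = ∞`, `∫_I U > 0`). `u` = measurable representative of
`ENNReal.ofReal ∘ U`, positive and finite everywhere (value 1 on the null set). `ap`: `Icc` and `Ioo` differ by a null set,
multiply by `|I| · |I|^{p-1}`. `Tail r`: for `l = 2y`: `ker r x z y ≤ (l/(|x-z|+l))^r ≤ 2 l^r/(l^r+|x-z|^r)`
(`l^r + d^r ≤ 2 (l+d)^r`). `Growth`: by the self-improvement of `B_r` (helper84,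
`Pool.Agent.Results.MP_842e08_an.OpenEnded`; copy its lemmas into a library file) `B q U` for some `1 < q < r`, then
`m u z (t y) ≤ (1+t)^q ∫ ker q x z y u ≤ 2^q t^q T m u z y`. -/
def S_TR : Prop := ∀ (p r : ℝ) (U : ℝ → ℝ), 1 < p → 1 < r → IsWeight U → ¬ (U =ᵐ[volume] 0) →
  A p U → B r U → ∃ (u : ℝ → ℝ≥0∞) (Q T D : ℝ≥0) (q : ℝ), (u =ᵐ[volume] fun x => ENNReal.ofReal (U x)) ∧
    APd p u Q ∧ Tail r u T ∧ 0 < q ∧ q < r ∧ Growth q u D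

/-- **LOW**: lower bound for `g*_λ`. Proof. `l = b - a`, `c = (a+b)/2`. For `z ∈ [b+l, b+2l]`, `y ∈ [l, 2l]`, `x ∈ [a,b]`:
`∂_z y/((x-z)²+y²) = -2y(z-x)/((x-z)²+y²)²`, all of the same sign and `|..| ≥ 2·l·l/(9l²+4l²)²`, so
`|∂_z poisson f z y| ≥ c₁ (∫ f)/l²` and `gradSq f z y ≥ c₁² (∫f)²/l⁴` (derivative under the integral by POI or directly;
`f` is bounded with support in `[a,b]`, so `f/(1+x²)` is integrable). There `y/(|x-z|+y) ≥ l/(|x-c| + 4l+...)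
≥ c₂ l/(l+|x-c|)`. Integrate over the box of area `l²` and take the square root. -/
def S_LOW : Prop := ∀ lam : ℝ, 0 < lam → ∃ κ : ℝ, 0 < κ ∧ ∀ (a b : ℝ) (f : ℝ → ℝ), a < b → Measurable f →
  (∀ x, 0 ≤ f x) → (∃ M : ℝ, ∀ x, f x ≤ M) → (∀ x, x ∉ Icc a b → f x = 0) → ∀ x : ℝ,
    ENNReal.ofReal (κ * ((b - a) / ((b - a) + |x - (a + b) / 2|)) ^ (lam / 2) *
      ((b - a)⁻¹ * ∫ t, f t)) ≤ gStar lam f x

/-- **NEC**: necessity. Proof from LOW. `A_p`: `I = [a,b]`; for `x ∈ I` the kernel factor is `≥ 2^{-λ/2}·...`, so for bounded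
`f ≥ 0` on `I`: `κ' ((b-a)⁻¹ ∫ f)^p U(I) ≤ C ∫_I f^p U`. Take `f_n = (U + 1/(n+1))^{-1/(p-1)}` on `I` (use a measurable
representative of `U`), so that `f_n^p U ≤ f_n`, `0 < ∫ f_n < ∞`: `(∫_I f_n)^{p-1} U(I) ≤ C' |I|^p`, and let `n → ∞`
(monotone convergence in `[0,∞]`; if `U(I) = 0` the product is `0`). `B_r`, `r = λp/2`: `f = 1_I`, `l = |I|`:
`∫ (l/(l+|x-x_I|))^r U ≤ C' ∫_I U`, and `l^{r-1}/(l^r+d^r) ≤ 2^r l⁻¹ (l/(l+d))^r`. -/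
def S_NEC : Prop := ∀ (lam p : ℝ) (U : ℝ → ℝ), 0 < lam → 1 < p → IsWeight U → Star lam p U →
  A p U ∧ B (lam * p / 2) U

end Pool.Agent.Q64.GL
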