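import Pool.Agent.Q64.GL.Stm

/-!
# Sufficiency: extrapolation
-/

set_option autoImplicit false

open MeasureTheory Set Filter Topology
open scoped ENNReal NNReal Real

namespace Pool.Agent.Q64.GL

theorem m_congr {u v : ℝ → ℝ≥0∞} (h : u =ᵐ[volume] v) (z y : ℝ) : m u z y = m v z y := by
  unfold m
  exact lintegral_congr_ae (ae_restrict_of_ae h)

theorem TM_congr {u v : ℝ → ℝ≥0∞} (h : u =ᵐ[volume] v) (a x : ℝ) : TM a u x = TM a v x := by
  unfold TM
  simp only [m_congr h]

/-- Poisson integrals of a.e. equal functions agree. -/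
theorem poisson_congr {f g : ℝ → ℝ} (h : f =ᵐ[volume] g) (z y : ℝ) :
    poisson f z y = poisson g z y := by
  unfold poisson
  congr 1
  refine integral_congr_ae ?_
  have hq : (fun x => f (z - x)) =ᵐ[volume] fun x => g (z - x) := by
    exact (quasiMeasurePreserving_sub_left_of_right_invariant volume z).ae_eq h
  filter_upwards [hq] with x hx
  simp only [hx]

theorem gStar_congr {f g : ℝ → ℝ} (h : f =ᵐ[volume] g) (lam x : ℝ) :
    gStar lam f x = gStar lam g x := by
  unfold gStar gradSq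
  simp only [poisson_congr h]

theorem gStar_zero {f : ℝ → ℝ} (h : f =ᵐ[volume] 0) {lam : ℝ} (x : ℝ) : gStar lam f x = 0 := by
  rw [gStar_congr h]
  have hp : ∀ z y, poisson (0 : ℝ → ℝ) z y = 0 := by
    intro z y
    simp [poisson]
  unfold gStar gradSq
  simp [hp]

/-- The square of the gradient is measurable. -/
theorem grad_meas (hPOI : S_POI) {f : ℝ → ℝ} (hf : Integrable (fun x => f x / (1 + x ^ 2)) volume) :
    ∃ D : ℝ × ℝ → ℝ, Measurable D ∧ (∀ q, 0 ≤ D q) ∧ ∀ z y : ℝ, 0 < y → gradSq f z y = D (z, y) := by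
  obtain ⟨G, -, -, hG⟩ := hPOI f hf
  refine ⟨fun q => ‖deriv G ⟨q.1, q.2⟩‖ ^ 2, ?_, fun q => by positivity, fun z y hy =>
    (hG z y hy).2.2⟩
  have h1 : Measurable fun q : ℝ × ℝ => (⟨q.1, q.2⟩ : ℂ) := by
    have : (fun q : ℝ × ℝ => (⟨q.1, q.2⟩ : ℂ)) = fun q => ((q.1 : ℝ) : ℂ) + ((q.2 : ℝ) : ℂ) * Complex.I := by
      funext q
      exact (Complex.mk_eq_add_mul_I q.1 q.2)
    rw [this]
    fun_prop
  exact (((measurable_deriv G).comp h1).norm).pow_const 2

theorem gStar_meas (hPOI : S_POI) {f : ℝ → ℝ}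
    (hf : Integrable (fun x => f x / (1 + x ^ 2)) volume) (lam : ℝ) : Measurable (gStar lam f) := by
  obtain ⟨D, hD, -, hDe⟩ := grad_meas hPOI hf
  have h1 : gStar lam f = fun x => (∫⁻ z, ∫⁻ y in Ioi (0 : ℝ),
      ENNReal.ofReal ((y / (|x - z| + y)) ^ lam * D (z, y))) ^ (1 / 2 : ℝ) := by
    funext x
    unfold gStar
    congr 1
    refine lintegral_congr fun z => ?_
    refine setLIntegral_congr_fun measurableSet_Ioi fun y hy => ?_
    simp only [hDe z y hy]
  rw [h1]
  refine Measurable.pow_const ?_ _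
  refine Measurable.lintegral_prod_right' (f := fun q : ℝ × ℝ => ∫⁻ y in Ioi (0 : ℝ),
      ENNReal.ofReal ((y / (|q.1 - q.2| + y)) ^ lam * D (q.2, y))) ?_
  refine Measurable.lintegral_prod_right' (f := fun q : (ℝ × ℝ) × ℝ =>
      ENNReal.ofReal ((q.2 / (|q.1.1 - q.1.2| + q.2)) ^ lam * D (q.1.2, q.2))) ?_
  refine Measurable.ennreal_ofReal ?_
  refine Measurable.mul ?_ ?_
  · refine Measurable.pow_const ?_ _
    refine Measurable.div measurable_snd ?_
    refine Measurable.add ?_ measurable_snd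
    exact ((measurable_fst.comp measurable_fst).sub (measurable_snd.comp measurable_fst)).norm
  · exact hD.comp ((measurable_snd.comp measurable_fst).prodMk measurable_snd)

/-- Hölder on an interval. -/
theorem m_holder {p : ℝ} (hp : 1 < p) {u R : ℝ → ℝ≥0∞} (hu : Measurable u) (hu0 : ∀ x, u x ≠ 0)
    (hui : ∀ x, u x ≠ ∞) (hR : Measurable R) (z y : ℝ) :
    m R z y ≤ (∫⁻ x, R x ^ p * u x) ^ (1 / p) *
      m (fun x => u x ^ (-1 / (p - 1))) z y ^ ((p - 1) / p) := by
  have hp0 : 0 < p := by linarith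
  have hp1 : 0 < p - 1 := by linarith
  have hc : p.HolderConjugate (p / (p - 1)) := by
    have := Real.HolderConjugate.conjExponent hp
    simpa [Real.conjExponent] using this
  have h := ENNReal.lintegral_mul_le_Lp_mul_Lq (volume.restrict (Ioo (z - y) (z + y))) hc
    (f := fun x => R x * u x ^ (1 / p)) (g := fun x => u x ^ (-1 / p))
    (hR.mul (hu.pow_const _)).aemeasurable (hu.pow_const _).aemeasurable
  have e1 : (fun x => R x * u x ^ (1 / p)) * (fun x => u x ^ (-1 / p)) = R := by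
    funext x
    show R x * u x ^ (1 / p) * u x ^ (-1 / p) = R x
    rw [mul_assoc, ← ENNReal.rpow_add _ _ (hu0 x) (hui x)]
    rw [show 1 / p + -1 / p = 0 by ring, ENNReal.rpow_zero, mul_one]
  rw [e1] at h
  refine h.trans (mul_le_mul' (ENNReal.rpow_le_rpow ?_ (by positivity)) (le_of_eq ?_))
  · have e2 : ∀ x, (R x * u x ^ (1 / p)) ^ p = R x ^ p * u x := by
      intro x
      rw [ENNReal.mul_rpow_of_nonneg _ _ hp0.le, ← ENNReal.rpow_mul, one_div_mul_cancel hp0.ne',
        ENNReal.rpow_one]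
    simp only [e2]
    exact setLIntegral_le_lintegral _ _
  · unfold m
    have e3 : ∀ x, (u x ^ (-1 / p)) ^ (p / (p - 1)) = u x ^ (-1 / (p - 1)) := by
      intro x
      rw [← ENNReal.rpow_mul]
      congr 1
      field_simp
    simp only [e3]
    rw [show 1 / (p / (p - 1)) = (p - 1) / p by field_simp]

theorem t_SUF (hPOI : S_POI) (hTMM : S_TMM) (hTMB : S_TMB) (hRDF : S_RDF) (hWW : S_WW) (hG2 : S_G2) : S_SUF := by
  intro p lam q hp1 hp2 hl hq0 hq Q T D
  have ha : 0 < lam / 2 := by linarith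
  have hp0 : 0 < p := by linarith
  obtain ⟨C1, hC1⟩ := hTMB p (lam / 2) q hp1 ha hq0 (by linarith) Q D
  obtain ⟨K, hK⟩ := hRDF p (lam / 2) hp1 ha C1
  obtain ⟨Q', hQ'⟩ := hWW p lam hp1 hp2 hl Q T K
  obtain ⟨C2, hC2⟩ := hG2 lam hl Q' Q'
  refine ⟨C2 ^ (p / 2) * K ^ ((2 - p) / 2), fun u hu hT hD f hf hfin => ?_⟩
  have hum := hu.meas
  set g : ℝ → ℝ≥0∞ := fun x => ENNReal.ofReal |f x| with hg
  have hgm : Measurable g := (hf.norm).ennreal_ofReal
  obtain ⟨R, hRm, hfR, hTR, hRi⟩ := hK u hum (fun h hh => hC1 u hu hD h hh) g hgm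
  by_cases hf0 : f =ᵐ[volume] 0
  · refine ⟨?_, ?_⟩
    · refine (integrable_zero ℝ ℝ volume).congr ?_
      filter_upwards [hf0] with x hx
      simp [hx]
    · have : ∀ x, gStar lam f x ^ p * u x = 0 := by
        intro x
        rw [gStar_zero hf0, ENNReal.zero_rpow_of_pos hp0, zero_mul]
      simp [this]
  -- the majorant is positive and finite
  have hg0 : ¬ (g =ᵐ[volume] 0) := by
    intro h
    apply hf0
    filter_upwards [h] with x hx
    have h1 : ENNReal.ofReal |f x| = 0 := hx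
    rw [ENNReal.ofReal_eq_zero] at h1
    exact abs_eq_zero.1 (le_antisymm h1 (abs_nonneg _))
  have hR0' : ∀ x, R x ≠ 0 := by
    intro x hx
    have h1 : TM (lam / 2) g x ≠ 0 := (hTMM (lam / 2) ha).2.2.2 g hgm hg0 x
    have h2 : TM (lam / 2) g x ≤ TM (lam / 2) R x := by
      unfold TM
      refine iSup_mono fun z => iSup_mono fun y => iSup_mono fun _ => ?_
      unfold m
      gcongr with t
      exact hfR t
    have h3 := h2.trans (hTR x)
    rw [hx, mul_zero] at h3
    exact h1 (le_antisymm h3 bot_le)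
  have hKfin : ∫⁻ x, R x ^ p * u x ≠ ∞ := by
    refine ne_of_lt (hRi.trans_lt ?_)
    exact ENNReal.mul_lt_top ENNReal.coe_lt_top (lt_top_iff_ne_top.2 hfin)
  have hRae : ∀ᵐ x, R x ≠ ∞ := by
    have h1 : ∀ᵐ x, R x ^ p * u x < ∞ :=
      ae_lt_top ((hRm.pow_const p).mul hum) hKfin
    filter_upwards [h1] with x hx hc
    rw [hc, ENNReal.top_rpow_of_pos hp0, ENNReal.top_mul (hu.pos x)] at hx
    exact lt_irrefl _ hx
  set R' : ℝ → ℝ≥0∞ := fun x => if R x = ∞ then 1 else R x with hR'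
  have hR'm : Measurable R' := by
    refine Measurable.ite ?_ measurable_const hRm
    exact hRm (measurableSet_singleton _)
  have hR'e : R' =ᵐ[volume] R := by
    filter_upwards [hRae] with x hx
    simp [hR', hx]
  have hR'0 : ∀ x, R' x ≠ 0 := by
    intro x
    simp only [hR']
    split_ifs with h
    · exact one_ne_zero
    · exact hR0' x
  have hR'i : ∀ x, R' x ≠ ∞ := by
    intro x
    simp only [hR']
    split_ifs with h
    · exact ENNReal.one_ne_top
    · exact h
  have hR'p : ∫⁻ x, R' x ^ p * u x = ∫⁻ x, R x ^ p * u x := by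
    refine lintegral_congr_ae ?_
    filter_upwards [hR'e] with x hx
    simp only [hx]
  have hmσ : ∀ z y, m (fun x => u x ^ (-1 / (p - 1))) z y ≠ ∞ := by
    intro z y
    rcases le_or_gt y 0 with hy | hy
    · unfold m
      rw [Ioo_eq_empty (by linarith)]
      simp
    · have h1 := hu.ap z y hy
      have h2 : m u z y ≠ 0 := by
        unfold m
        intro h0
        rw [lintegral_eq_zero_iff hum] at h0
        have h3 : (volume.restrict (Ioo (z - y) (z + y))) = 0 := by
          by_contra hne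
          have : NeZero (volume.restrict (Ioo (z - y) (z + y))) := ⟨hne⟩
          obtain ⟨x, hx⟩ := h0.exists
          exact hu.pos x hx
        rw [Measure.restrict_eq_zero, Real.volume_Ioo, ENNReal.ofReal_eq_zero] at h3
        linarith
      intro h3
      rw [h3, ENNReal.top_rpow_of_pos (by linarith), ENNReal.mul_top h2] at h1
      refine absurd h1 (not_le.2 ?_)
      exact ENNReal.mul_lt_top ENNReal.coe_lt_top
        (ENNReal.rpow_lt_top_of_nonneg (by linarith) ENNReal.ofReal_ne_top)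
  have hmR : ∀ z y, m R' z y ≠ ∞ := by
    intro z y
    refine ne_of_lt ((m_holder hp1 hum hu.pos hu.fin hR'm z y).trans_lt ?_)
    refine ENNReal.mul_lt_top ?_ ?_
    · rw [hR'p]
      exact ENNReal.rpow_lt_top_of_nonneg (by positivity) hKfin
    · exact ENNReal.rpow_lt_top_of_nonneg (by apply div_nonneg <;> linarith) (hmσ z y)
  have hTR' : ∀ᵐ x, TM (lam / 2) R' x ≤ K * R' x := by
    filter_upwards [hR'e] with x hx
    rw [TM_congr hR'e, hx]
    exact hTR x
  obtain ⟨hw, hwT⟩ := hQ' u R' hu hT hR'm hR'0 hR'i hmR hTR'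
  have hfR' : ∀ᵐ x, g x ≤ R' x := by
    filter_upwards [hR'e] with x hx
    rw [hx]
    exact hfR x
  have hpt : ∀ᵐ x, ENNReal.ofReal |f x| ^ 2 * (u x * R' x ^ (p - 2)) ≤ g x ^ p * u x := by
    filter_upwards [hfR'] with x hx
    have h1 : ENNReal.ofReal |f x| ^ 2 * R' x ^ (p - 2) ≤ g x ^ p := by
      rcases eq_or_ne (g x) 0 with h0 | h0
      · have h00 : ENNReal.ofReal |f x| = 0 := h0
        rw [h00]
        simp
      · have h2 : R' x ^ (p - 2) ≤ g x ^ (p - 2) := by
          rw [show p - 2 = -(2 - p) by ring, ENNReal.rpow_neg, ENNReal.rpow_neg]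
          exact ENNReal.inv_le_inv.2 (ENNReal.rpow_le_rpow hx (by linarith))
        have h3 : g x ^ (2 : ℕ) * g x ^ (p - 2) = g x ^ p := by
          rw [← ENNReal.rpow_natCast, ← ENNReal.rpow_add _ _ h0 ENNReal.ofReal_ne_top]
          congr 1
          push_cast
          ring
        calc ENNReal.ofReal |f x| ^ 2 * R' x ^ (p - 2) ≤ g x ^ 2 * g x ^ (p - 2) := by gcongr
          _ = g x ^ p := h3
    calc ENNReal.ofReal |f x| ^ 2 * (u x * R' x ^ (p - 2))
        = (ENNReal.ofReal |f x| ^ 2 * R' x ^ (p - 2)) * u x := by ring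
      _ ≤ g x ^ p * u x := by gcongr
  have hint : ∫⁻ x, ENNReal.ofReal |f x| ^ 2 * (u x * R' x ^ (p - 2)) ≤ ∫⁻ x, g x ^ p * u x :=
    lintegral_mono_ae hpt
  obtain ⟨hI, hmain⟩ := hC2 (fun x => u x * R' x ^ (p - 2)) hw hwT f hf
    (ne_of_lt (hint.trans_lt (lt_top_iff_ne_top.2 hfin)))
  refine ⟨hI, ?_⟩
  -- Hölder
  have hc : (2 / p).HolderConjugate (2 / (2 - p)) := by
    rw [Real.holderConjugate_iff]
    constructor
    · rw [lt_div_iff₀ hp0]
      linarith
    · have : (2 - p) ≠ 0 := by linarith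
      field_simp
      ring
  have hpw : ∀ x, gStar lam f x ^ p * u x =
      (gStar lam f x ^ (2 : ℝ) * (u x * R' x ^ (p - 2))) ^ (p / 2) *
        (R' x ^ p * u x) ^ ((2 - p) / 2) := by
    intro x
    have hx0 := hR'0 x
    have hxi := hR'i x
    have hu0 := hu.pos x
    have hui := hu.fin x
    rw [ENNReal.mul_rpow_of_nonneg _ _ (by positivity),
      ENNReal.mul_rpow_of_nonneg _ _ (by positivity),
      ENNReal.mul_rpow_of_nonneg _ _ (by linarith), ← ENNReal.rpow_mul, ← ENNReal.rpow_mul,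
      ← ENNReal.rpow_mul, show (2 : ℝ) * (p / 2) = p by ring]
    have e1 : u x ^ (p / 2) * R' x ^ ((p - 2) * (p / 2)) *
        (R' x ^ (p * ((2 - p) / 2)) * u x ^ ((2 - p) / 2)) = u x := by
      calc u x ^ (p / 2) * R' x ^ ((p - 2) * (p / 2)) *
        (R' x ^ (p * ((2 - p) / 2)) * u x ^ ((2 - p) / 2))
          = (u x ^ (p / 2) * u x ^ ((2 - p) / 2)) *
            (R' x ^ ((p - 2) * (p / 2)) * R' x ^ (p * ((2 - p) / 2))) := by ring
        _ = u x := by
            rw [← ENNReal.rpow_add _ _ hu0 hui, ← ENNReal.rpow_add _ _ hx0 hxi]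
            rw [show p / 2 + (2 - p) / 2 = 1 by ring,
              show (p - 2) * (p / 2) + p * ((2 - p) / 2) = 0 by ring]
            simp
    rw [mul_assoc, e1]
  have hmeas2 : AEMeasurable (fun x => (R' x ^ p * u x) ^ ((2 - p) / 2)) volume :=
    (((hR'm.pow_const p).mul hum).pow_const _).aemeasurable
  by_cases hgm2 : ∫⁻ x, g x ^ p * u x = 0
  · exfalso
    have hgm2 := (lintegral_eq_zero_iff ((hgm.pow_const p).mul hum)).1 hgm2
    apply hg0
    filter_upwards [hgm2] with x hx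
    have hx' : g x ^ p * u x = 0 := hx
    rcases mul_eq_zero.1 hx' with h | h
    · exact (ENNReal.rpow_eq_zero_iff_of_pos hp0).1 h
    · exact absurd h (hu.pos x)
  have hgsm : Measurable (gStar lam f) := gStar_meas hPOI hI lam
  have hmeas1 : AEMeasurable (fun x => (gStar lam f x ^ (2 : ℝ) * (u x * R' x ^ (p - 2))) ^ (p / 2))
      volume :=
    (((hgsm.pow_const _).mul (hum.mul (hR'm.pow_const _))).pow_const _).aemeasurable
  have hH := ENNReal.lintegral_mul_le_Lp_mul_Lq volume hc hmeas1 hmeas2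
  have h2p : (0 : ℝ) < 2 - p := by linarith
  calc ∫⁻ x, gStar lam f x ^ p * u x
      = ∫⁻ x, ((fun x => (gStar lam f x ^ (2 : ℝ) * (u x * R' x ^ (p - 2))) ^ (p / 2)) *
          (fun x => (R' x ^ p * u x) ^ ((2 - p) / 2))) x := lintegral_congr hpw
    _ ≤ _ := hH
    _ = (∫⁻ x, gStar lam f x ^ (2 : ℝ) * (u x * R' x ^ (p - 2))) ^ (p / 2) *
          (∫⁻ x, R' x ^ p * u x) ^ ((2 - p) / 2) := by
        congr 1
        · rw [one_div_div]
          congr 1
          refine lintegral_congr fun x => ?_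
          rw [← ENNReal.rpow_mul, show p / 2 * (2 / p) = 1 by field_simp, ENNReal.rpow_one]
        · rw [one_div_div]
          congr 1
          refine lintegral_congr fun x => ?_
          rw [← ENNReal.rpow_mul, show (2 - p) / 2 * (2 / (2 - p)) = 1 by field_simp,
            ENNReal.rpow_one]
    _ ≤ (C2 * ∫⁻ x, g x ^ p * u x) ^ (p / 2) * (K * ∫⁻ x, g x ^ p * u x) ^ ((2 - p) / 2) := by
        gcongr
        · exact hmain.trans (by gcongr)
        · rw [hR'p]
          exact hRi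
    _ = ↑(C2 ^ (p / 2) * K ^ ((2 - p) / 2)) * ∫⁻ x, ENNReal.ofReal |f x| ^ p * u x := by
        rw [ENNReal.mul_rpow_of_nonneg _ _ (by positivity),
          ENNReal.mul_rpow_of_nonneg _ _ (by linarith)]
        rw [ENNReal.coe_mul, ENNReal.coe_rpow_of_nonneg _ (by positivity),
          ENNReal.coe_rpow_of_nonneg _ (by linarith)]
        have e : (∫⁻ x, g x ^ p * u x) ^ (p / 2) * (∫⁻ x, g x ^ p * u x) ^ ((2 - p) / 2) =
            ∫⁻ x, g x ^ p * u x := by
          rw [← ENNReal.rpow_add _ _ hgm2 hfin, show p / 2 + (2 - p) / 2 = 1 by ring,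
            ENNReal.rpow_one]
        calc (C2 : ℝ≥0∞) ^ (p / 2) * (∫⁻ x, g x ^ p * u x) ^ (p / 2) *
            ((K : ℝ≥0∞) ^ ((2 - p) / 2) * (∫⁻ x, g x ^ p * u x) ^ ((2 - p) / 2))
            = (C2 : ℝ≥0∞) ^ (p / 2) * (K : ℝ≥0∞) ^ ((2 - p) / 2) *
              ((∫⁻ x, g x ^ p * u x) ^ (p / 2) * (∫⁻ x, g x ^ p * u x) ^ ((2 - p) / 2)) := by ring
          _ = _ := by rw [e]

end Pool.Agent.Q64.GL
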