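import Pool.Agent.Q64.GL.Suf

/-!
# The weighted `L²` inequality: assembly
-/

set_option autoImplicit false

open MeasureTheory Set Filter Topology
open scoped ENNReal NNReal Real

namespace Pool.Agent.Q64.GL

/-- the Poisson integral with the variables in the other order -/
theorem poisson_eq (f : ℝ → ℝ) (z y : ℝ) :
    poisson f z y = (1 / π) * ∫ x, y * f x / ((x - z) ^ 2 + y ^ 2) := by
  unfold poisson
  congr 1
  have h := integral_sub_left_eq_self (fun x => y * f x / ((x - z) ^ 2 + y ^ 2)) volume z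
  rw [← h]
  refine integral_congr_ae (Eventually.of_forall fun x => ?_)
  simp only
  rw [show z - x - z = -x by ring, neg_sq]

theorem kernel_le {d y : ℝ} (hy : 0 < y) :
    y ^ 2 / (d ^ 2 + y ^ 2) ≤ 2 * (y / (|d| + y)) ^ (2 : ℝ) := by
  have h0 : 0 ≤ |d| := abs_nonneg d
  rw [Real.rpow_two, div_pow, ← sq_abs d, mul_div_assoc']
  rw [div_le_div_iff₀ (by positivity) (by positivity)]
  have h1 : (|d| + y) ^ 2 ≤ 2 * (|d| ^ 2 + y ^ 2) := by nlinarith [sq_nonneg (|d| - y)]
  have h2 : 0 ≤ y ^ 2 := by positivity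
  nlinarith

theorem kernel_ge {x z y : ℝ} (hx : x ∈ Ioo (z - y) (z + y)) (hy : 0 < y) :
    1 / (2 * y) ≤ y / ((x - z) ^ 2 + y ^ 2) := by
  have h1 : (x - z) ^ 2 ≤ y ^ 2 := by
    rw [sq_le_sq, abs_of_pos hy]
    exact (abs_lt.2 ⟨by linarith [hx.1], by linarith [hx.2]⟩).le
  rw [div_le_div_iff₀ (by positivity) (by positivity)]
  nlinarith

/-- tail condition: integrability and the upper bound for the Poisson integral -/
theorem tail_poisson {w : ℝ → ℝ} (hw : Measurable w) (hw0 : ∀ x, 0 < w x) {T : ℝ≥0}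
    (hT : Tail 2 (fun x => ENNReal.ofReal (w x)) T)
    (hm : ∀ z y, m (fun x => ENNReal.ofReal (w x)) z y ≠ ∞) :
    Integrable (fun x => w x / (1 + x ^ 2)) volume ∧
    (∀ z y : ℝ, 0 < y → poisson w z y ≤
      2 * T / y * (m (fun x => ENNReal.ofReal (w x)) z y).toReal) ∧
    (∀ z y : ℝ, 0 < y → Integrable (fun x => y * w x / ((x - z) ^ 2 + y ^ 2)) volume) := by
  have key : ∀ z y : ℝ, 0 < y → ∫⁻ x, ENNReal.ofReal (y * w x / ((x - z) ^ 2 + y ^ 2)) ≤
      ENNReal.ofReal (2 * T / y * (m (fun x => ENNReal.ofReal (w x)) z y).toReal) := by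
    intro z y hy
    have h1 : ∀ x, ENNReal.ofReal (y * w x / ((x - z) ^ 2 + y ^ 2)) ≤
        ENNReal.ofReal (2 / y) * (ENNReal.ofReal (ker 2 x z y) * ENNReal.ofReal (w x)) := by
      intro x
      have hk : 0 ≤ ker 2 x z y := by
        unfold ker
        have := abs_nonneg (x - z)
        positivity
      rw [← ENNReal.ofReal_mul hk, ← ENNReal.ofReal_mul (by positivity)]
      refine ENNReal.ofReal_le_ofReal ?_
      have h2 := kernel_le (d := x - z) hy
      have h3 : y * w x / ((x - z) ^ 2 + y ^ 2) = (y ^ 2 / ((x - z) ^ 2 + y ^ 2)) * (w x / y) := by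
        have : (x - z) ^ 2 + y ^ 2 ≠ 0 := by positivity
        field_simp
      rw [h3]
      calc y ^ 2 / ((x - z) ^ 2 + y ^ 2) * (w x / y)
          ≤ 2 * (y / (|x - z| + y)) ^ (2 : ℝ) * (w x / y) :=
            mul_le_mul_of_nonneg_right h2 (div_nonneg (hw0 x).le hy.le)
        _ = 2 / y * (ker 2 x z y * w x) := by
            unfold ker
            ring
    calc ∫⁻ x, ENNReal.ofReal (y * w x / ((x - z) ^ 2 + y ^ 2))
        ≤ ∫⁻ x, ENNReal.ofReal (2 / y) *
            (ENNReal.ofReal (ker 2 x z y) * ENNReal.ofReal (w x)) := lintegral_mono h1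
      _ = ENNReal.ofReal (2 / y) *
            ∫⁻ x, ENNReal.ofReal (ker 2 x z y) * ENNReal.ofReal (w x) :=
          lintegral_const_mul' _ _ ENNReal.ofReal_ne_top
      _ ≤ ENNReal.ofReal (2 / y) * (T * m (fun x => ENNReal.ofReal (w x)) z y) := by
          gcongr
          exact hT z y hy
      _ = ENNReal.ofReal (2 * T / y * (m (fun x => ENNReal.ofReal (w x)) z y).toReal) := by
          rw [ENNReal.ofReal_mul (by positivity), ENNReal.ofReal_toReal (hm z y),
            ← ENNReal.ofReal_coe_nnreal (p := T), ← mul_assoc, ← ENNReal.ofReal_mul (by positivity)]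
          congr 2
          ring
  have hmeas : ∀ z y : ℝ, Measurable fun x => y * w x / ((x - z) ^ 2 + y ^ 2) := by
    intro z y
    fun_prop
  have hint : ∀ z y : ℝ, 0 < y → Integrable (fun x => y * w x / ((x - z) ^ 2 + y ^ 2)) volume := by
    intro z y hy
    refine ⟨(hmeas z y).aestronglyMeasurable, ?_⟩
    rw [hasFiniteIntegral_iff_ofReal (Eventually.of_forall fun x => ?_)]
    · exact (key z y hy).trans_lt ENNReal.ofReal_lt_top
    · have := hw0 x
      positivity
  refine ⟨?_, ?_, hint⟩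
  · refine (hint 0 1 one_pos).congr (Eventually.of_forall fun x => ?_)
    simp only
    rw [one_mul, sub_zero, one_pow, add_comm]
  · intro z y hy
    rw [poisson_eq]
    have h1 : 0 ≤ ∫ x, y * w x / ((x - z) ^ 2 + y ^ 2) :=
      integral_nonneg fun x => by
        have := hw0 x
        positivity
    have h2 : ∫ x, y * w x / ((x - z) ^ 2 + y ^ 2) ≤
        2 * T / y * (m (fun x => ENNReal.ofReal (w x)) z y).toReal := by
      rw [integral_eq_lintegral_of_nonneg_ae (Eventually.of_forall fun x => ?_)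
        (hmeas z y).aestronglyMeasurable]
      · refine ENNReal.toReal_le_of_le_ofReal ?_ (key z y hy)
        positivity
      · have := hw0 x
        simp only [Pi.zero_apply]
        positivity
    have hpi : 1 / π ≤ 1 := by
      rw [div_le_one Real.pi_pos]
      linarith [Real.pi_gt_three]
    calc (1 / π) * ∫ x, y * w x / ((x - z) ^ 2 + y ^ 2)
        ≤ 1 * ∫ x, y * w x / ((x - z) ^ 2 + y ^ 2) := mul_le_mul_of_nonneg_right hpi h1
      _ ≤ _ := by rw [one_mul]; exact h2

/-- lower bound for the Poisson integral -/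
theorem m_le_poisson {w : ℝ → ℝ} (hw0 : ∀ x, 0 < w x) {z y : ℝ} (hy : 0 < y)
    (hint : Integrable (fun x => y * w x / ((x - z) ^ 2 + y ^ 2)) volume) :
    m (fun x => ENNReal.ofReal (w x)) z y ≤ ENNReal.ofReal (2 * π * y * poisson w z y) := by
  have h1 : 2 * π * y * poisson w z y = 2 * y * ∫ x, y * w x / ((x - z) ^ 2 + y ^ 2) := by
    rw [poisson_eq]
    have := Real.pi_pos
    field_simp
  rw [h1, ENNReal.ofReal_mul (by positivity),
    ofReal_integral_eq_lintegral_ofReal hint (Eventually.of_forall fun x => by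
      have := hw0 x
      simp only [Pi.zero_apply]
      positivity), ← lintegral_const_mul' _ _ ENNReal.ofReal_ne_top]
  unfold m
  refine le_trans (setLIntegral_mono' measurableSet_Ioo fun x hx => ?_)
    (setLIntegral_le_lintegral (Ioo (z - y) (z + y)) _)
  rw [← ENNReal.ofReal_mul (by positivity)]
  refine ENNReal.ofReal_le_ofReal ?_
  have h2 := kernel_ge hx hy
  have h3 : 2 * y * (y * w x / ((x - z) ^ 2 + y ^ 2)) =
      (y / ((x - z) ^ 2 + y ^ 2)) * (2 * y) * w x := by ring
  rw [h3]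
  have h4 : 1 ≤ (y / ((x - z) ^ 2 + y ^ 2)) * (2 * y) := by
    rw [div_le_iff₀ (by positivity)] at h2
    linarith
  nlinarith [hw0 x]

end Pool.Agent.Q64.GL
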