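import Pool.Agent.Q64.GL.Two

/-!
# The weighted `L²` inequality: assembly, part 2
-/

set_option autoImplicit false

open MeasureTheory Set Filter Topology
open scoped ENNReal NNReal Real

namespace Pool.Agent.Q64.GL

theorem isOpen_HP : IsOpen HP := isOpen_lt continuous_const continuous_snd

theorem one_dim {h : ℝ → ℝ} {t : ℝ} (hh : ContDiffAt ℝ 2 h t) :
    (∀ᶠ s in 𝓝 t, HasDerivAt h (deriv h s) s) ∧ HasDerivAt (deriv h) (deriv (deriv h) t) t := by
  constructor
  · filter_upwards [hh.eventually (by simp)] with s hs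
    exact (hs.differentiableAt (by simp)).hasDerivAt
  · have h1 : ContDiffAt ℝ 1 (fderiv ℝ h) t := hh.fderiv_right (by norm_num)
    have h2 : deriv h = fun s => fderiv ℝ h s 1 := by
      funext s
      exact (fderiv_apply_one_eq_deriv).symm
    have h3 : DifferentiableAt ℝ (deriv h) t := by
      rw [h2]
      exact (h1.differentiableAt (by simp)).clm_apply (differentiableAt_const _)
    exact h3.hasDerivAt

theorem cd_z {P : ℝ × ℝ → ℝ} (hP : ContDiffOn ℝ 2 P HP) {z y : ℝ} (hy : 0 < y) :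
    ContDiffAt ℝ 2 (fun s => P (s, y)) z := by
  have h1 : ContDiffAt ℝ 2 P (z, y) := hP.contDiffAt (isOpen_HP.mem_nhds hy)
  have h2 : ContDiffAt ℝ 2 (fun s : ℝ => (s, y)) z := by fun_prop
  exact h1.comp z h2

theorem cd_y {P : ℝ × ℝ → ℝ} (hP : ContDiffOn ℝ 2 P HP) {z y : ℝ} (hy : 0 < y) :
    ContDiffAt ℝ 2 (fun t => P (z, t)) y := by
  have h1 : ContDiffAt ℝ 2 P (z, y) := hP.contDiffAt (isOpen_HP.mem_nhds hy)
  have h2 : ContDiffAt ℝ 2 (fun t : ℝ => (z, t)) y := by fun_prop
  exact h1.comp y h2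

theorem eta_ge {W V : ℝ} (hW : 0 < W) (hV : 0 < V) (h : 1 ≤ W * V) :
    V ≤ 2 * V - 1 / (W ^ 2 * V) := by
  have h1 : 1 / (W ^ 2 * V) ≤ V := by
    rw [div_le_iff₀ (by positivity)]
    nlinarith
  linarith

theorem t_L2 (hAB : S_AB) (hPOI : S_POI) (hHAR : S_HAR) (hPK : S_PK) (hBEL : S_BEL1)
    (hGRN : S_GRN) : S_L2 := by
  intro Q
  obtain ⟨T, hT⟩ := hAB Q
  obtain ⟨hPK1, hPK2, hPK3, hPK4⟩ := hPK
  set Q1 : ℝ := max 1 (16 * T ^ 2 * Q) with hQ1
  obtain ⟨c, hc, hbel⟩ := hBEL Q1 (le_max_left _ _)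
  refine ⟨Real.toNNReal (14 * π / c), fun w hw hw0 hA f hf hfin => ?_⟩
  set v : ℝ → ℝ := fun x => (w x)⁻¹ with hv
  have hvm : Measurable v := hw.inv
  have hv0 : ∀ x, 0 < v x := fun x => inv_pos.2 (hw0 x)
  obtain ⟨hTw, hTv', hmv'⟩ := hT _ hA
  have hve : (fun x => (ENNReal.ofReal (w x))⁻¹) = fun x => ENNReal.ofReal (v x) := by
    funext x
    rw [hv, ENNReal.ofReal_inv_of_pos (hw0 x)]
  have hTv : Tail 2 (fun x => ENNReal.ofReal (v x)) T := by
    rw [← hve]
    exact hTv'
  have hmv : ∀ z y, m (fun x => ENNReal.ofReal (v x)) z y ≠ ∞ := by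
    rw [← hve]
    exact hmv'
  have hmw : ∀ z y, m (fun x => ENNReal.ofReal (w x)) z y ≠ ∞ := hA.loc
  obtain ⟨hwi, hwP, hpi⟩ := tail_poisson hw hw0 hTw hmw
  obtain ⟨hvi, hvP, -⟩ := tail_poisson hvm hv0 hTv hmv
  have hh : Integrable (fun x => f x ^ 2 * w x) volume := by
    refine ⟨((hf.pow_const 2).mul hw).aestronglyMeasurable, ?_⟩
    rw [hasFiniteIntegral_iff_ofReal (Eventually.of_forall fun x => ?_)]
    · exact lt_top_iff_ne_top.2 hfin
    · have := hw0 x
      simp only [Pi.zero_apply]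
      positivity
  obtain ⟨hfi, hCS⟩ := hPK2 w f hw hw0 hf hvi hh
  refine ⟨hfi, ?_⟩
  -- the product of the Poisson integrals
  have hprod : ∀ z y : ℝ, 0 < y → poisson w z y * poisson v z y ≤ Q1 := by
    intro z y hy
    have h1 := hwP z y hy
    have h2 := hvP z y hy
    have h3 : (m (fun x => ENNReal.ofReal (w x)) z y).toReal *
        (m (fun x => ENNReal.ofReal (v x)) z y).toReal ≤ Q * (2 * y) ^ 2 := by
      have h4 := hA.ap z y hy
      have h5 : (fun x => ENNReal.ofReal (w x) ^ (-1 / ((2 : ℝ) - 1))) =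
          fun x => ENNReal.ofReal (v x) := by
        rw [← hve]
        funext x
        rw [show (-1 / ((2 : ℝ) - 1)) = -1 by norm_num, ENNReal.rpow_neg_one]
      rw [h5, show ((2 : ℝ) - 1) = 1 by norm_num, ENNReal.rpow_one] at h4
      rw [← ENNReal.toReal_mul]
      refine ENNReal.toReal_le_of_le_ofReal (by positivity) (h4.trans ?_)
      rw [ENNReal.ofReal_mul (p := (Q : ℝ)) (by positivity), ENNReal.ofReal_coe_nnreal,
        ENNReal.rpow_two, ENNReal.ofReal_pow (by positivity)]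
    have hp1 : 0 < poisson v z y := hPK1 v hvm hv0 hvi z y hy
    calc poisson w z y * poisson v z y
        ≤ (2 * T / y * (m (fun x => ENNReal.ofReal (w x)) z y).toReal) *
          (2 * T / y * (m (fun x => ENNReal.ofReal (v x)) z y).toReal) := by
          refine mul_le_mul h1 h2 hp1.le ?_
          positivity
      _ = 4 * T ^ 2 / y ^ 2 * ((m (fun x => ENNReal.ofReal (w x)) z y).toReal *
        (m (fun x => ENNReal.ofReal (v x)) z y).toReal) := by
          field_simp
          ring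
      _ ≤ 4 * T ^ 2 / y ^ 2 * (Q * (2 * y) ^ 2) := by gcongr
      _ = 16 * T ^ 2 * Q := by
          field_simp
          ring
      _ ≤ Q1 := le_max_right _ _
  -- the functions
  have hW0 : ∀ z y : ℝ, 0 < y → 0 < poisson w z y := hPK1 w hw hw0 hwi
  have hV0 : ∀ z y : ℝ, 0 < y → 0 < poisson v z y := hPK1 v hvm hv0 hvi
  have hWV : ∀ z y : ℝ, 0 < y → 1 ≤ poisson w z y * poisson v z y := hPK3 w hw hw0 hwi hvi
  obtain ⟨hFc, hFh⟩ := hHAR f hfi
  obtain ⟨hWc, hWh⟩ := hHAR w hwi
  obtain ⟨hVc, hVh⟩ := hHAR v hvi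
  set F : ℝ × ℝ → ℝ := fun q => poisson f q.1 q.2 with hF
  set W : ℝ × ℝ → ℝ := fun q => poisson w q.1 q.2 with hW
  set V : ℝ × ℝ → ℝ := fun q => poisson v q.1 q.2 with hV
  set B : ℝ × ℝ → ℝ := fun q => F q ^ 2 / (2 * V q - 1 / (W q ^ 2 * V q)) with hB
  have heta : ∀ z y : ℝ, 0 < y → V (z, y) ≤ 2 * V (z, y) - 1 / (W (z, y) ^ 2 * V (z, y)) :=
    fun z y hy => eta_ge (hW0 z y hy) (hV0 z y hy) (hWV z y hy)
  have hBc : ContDiffOn ℝ 2 B HP := by
    refine (hFc.pow 2).div ?_ ?_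
    · refine (contDiffOn_const.mul hVc).sub ?_
      refine contDiffOn_const.div ((hWc.pow 2).mul hVc) ?_
      rintro ⟨z, y⟩ hy
      have h1 := hW0 z y hy
      have h2 := hV0 z y hy
      have : 0 < W (z, y) ^ 2 * V (z, y) := by
        show 0 < poisson w z y ^ 2 * poisson v z y
        positivity
      exact this.ne'
    · rintro ⟨z, y⟩ hy
      have h1 := heta z y hy
      have h2 : 0 < V (z, y) := hV0 z y hy
      exact (lt_of_lt_of_le h2 h1).ne'
  obtain ⟨Dg, hDg, hDg0, hDge⟩ := grad_meas hPOI hfi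
  classical
  set W' : ℝ × ℝ → ℝ := HP.piecewise W (fun _ => 0) with hW'
  have hW'm : Measurable W' := by
    refine ContinuousOn.measurable_piecewise hWc.continuousOn continuousOn_const
      isOpen_HP.measurableSet
  have hW'e : ∀ z y : ℝ, 0 < y → W' (z, y) = poisson w z y := by
    intro z y hy
    simp only [hW']
    rw [Set.piecewise_eq_of_mem]
    exact hy
  have hlap : ∀ z y : ℝ, 0 < y → c * W' (z, y) * Dg (z, y) ≤ dzz B z y + dyy B z y := by
    intro z y hy
    rw [hW'e z y hy, ← hDge z y hy]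
    obtain ⟨fz1, fz2⟩ := one_dim (cd_z hFc (z := z) hy)
    obtain ⟨wz1, wz2⟩ := one_dim (cd_z hWc (z := z) hy)
    obtain ⟨vz1, vz2⟩ := one_dim (cd_z hVc (z := z) hy)
    obtain ⟨fy1, fy2⟩ := one_dim (cd_y hFc (z := z) hy)
    obtain ⟨wy1, wy2⟩ := one_dim (cd_y hWc (z := z) hy)
    obtain ⟨vy1, vy2⟩ := one_dim (cd_y hVc (z := z) hy)
    have bz := hbel (fun s => F (s, y)) (fun s => W (s, y)) (fun s => V (s, y)) _ _ _ _ _ _ z
      fz1 wz1 vz1 fz2 wz2 vz2 (Eventually.of_forall fun s => hW0 s y hy)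
      (Eventually.of_forall fun s => hV0 s y hy) (Eventually.of_forall fun s => hWV s y hy)
      (hprod z y hy)
    have hev : ∀ᶠ t in 𝓝 y, 0 < t := lt_mem_nhds hy
    have byy := hbel (fun t => F (z, t)) (fun t => W (z, t)) (fun t => V (z, t)) _ _ _ _ _ _ y
      fy1 wy1 vy1 fy2 wy2 vy2 (hev.mono fun t ht => hW0 z t ht)
      (hev.mono fun t ht => hV0 z t ht) (hev.mono fun t ht => hWV z t ht)
      (hprod z y hy)
    have e1 := hFh z y hy
    have e2 := hWh z y hy
    have e3 := hVh z y hy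
    have e1' : dyy F z y = - dzz F z y := by linarith
    have e2' : dyy W z y = - dzz W z y := by linarith
    have e3' : dyy V z y = - dzz V z y := by linarith
    have hz : deriv (deriv (fun s => F (s, y))) z = dzz F z y := rfl
    have hwz : deriv (deriv (fun s => W (s, y))) z = dzz W z y := rfl
    have hvz : deriv (deriv (fun s => V (s, y))) z = dzz V z y := rfl
    have hy' : deriv (deriv (fun t => F (z, t))) y = dyy F z y := rfl
    have hwy : deriv (deriv (fun t => W (z, t))) y = dyy W z y := rfl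
    have hvy : deriv (deriv (fun t => V (z, t))) y = dyy V z y := rfl
    have hbz : deriv (deriv (fun s => F (s, y) ^ 2 / (2 * V (s, y) - 1 / (W (s, y) ^ 2 * V (s, y))))) z
      = dzz B z y := rfl
    have hby : deriv (deriv (fun t => F (z, t) ^ 2 / (2 * V (z, t) - 1 / (W (z, t) ^ 2 * V (z, t))))) y
      = dyy B z y := rfl
    rw [hz, hwz, hvz, hbz] at bz
    rw [hy', hwy, hvy, hby, e1', e2', e3'] at byy
    have hgr : gradSq f z y = deriv (fun s => F (s, y)) z ^ 2 + deriv (fun t => F (z, t)) y ^ 2 := rfl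
    rw [hgr]
    have hWzy : W (z, y) = poisson w z y := rfl
    rw [← hWzy]
    have e4 : (-dzz W z y * 1) = - (dzz W z y) := by ring
    have key : c * W (z, y) * (deriv (fun s => F (s, y)) z ^ 2 + deriv (fun t => F (z, t)) y ^ 2)
        = c * W (z, y) * deriv (fun s => F (s, y)) z ^ 2 +
          c * W (z, y) * deriv (fun t => F (z, t)) y ^ 2 := by ring
    rw [key]
    refine (add_le_add bz byy).trans (le_of_eq ?_)
    ring
  have hBn : ∀ y : ℝ, 0 < y → ∫⁻ z, ENNReal.ofReal (B (z, y)) ≤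
      ((∫ x, f x ^ 2 * w x).toNNReal : ℝ≥0∞) := by
    intro y hy
    have h1 := hPK4 (fun x => f x ^ 2 * w x) ((hf.pow_const 2).mul hw)
      (fun x => by
        have := hw0 x
        positivity) hh y hy
    refine le_trans (lintegral_mono fun z => ENNReal.ofReal_le_ofReal ?_) (le_of_eq h1)
    have h2 := heta z y hy
    have h3 : 0 < V (z, y) := hV0 z y hy
    have h4 : F (z, y) ^ 2 ≤ poisson (fun x => f x ^ 2 * w x) z y * V (z, y) := hCS z y hy
    have h5 : B (z, y) ≤ F (z, y) ^ 2 / V (z, y) :=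
      div_le_div_of_nonneg_left (sq_nonneg _) h3 h2
    refine h5.trans ?_
    rw [div_le_iff₀ h3]
    exact h4
  have hG := hGRN B (fun q => c * W' q * Dg q) _ hBc ((measurable_const.mul hW'm).mul hDg)
    (fun q hq => by
      have h2 := heta q.1 q.2 hq
      have h3 : 0 < V (q.1, q.2) := hV0 q.1 q.2 hq
      exact div_nonneg (sq_nonneg _) (h3.le.trans h2))
    (fun q hq => by
      have h2 := hW'e q.1 q.2 hq
      have h3 := hW0 q.1 q.2 hq
      have h4 : W' q = poisson w q.1 q.2 := h2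
      rw [h4]
      exact mul_nonneg (mul_nonneg hc.le h3.le) (hDg0 q))
    hlap hBn
  -- comparison
  calc ∫⁻ z, ∫⁻ y in Ioi (0 : ℝ), ENNReal.ofReal (gradSq f z y) *
        m (fun x => ENNReal.ofReal (w x)) z y
      ≤ ∫⁻ z, ∫⁻ y in Ioi (0 : ℝ), ENNReal.ofReal (2 * π / c) *
          ENNReal.ofReal (y * (c * W' (z, y) * Dg (z, y))) := by
        refine lintegral_mono fun z => setLIntegral_mono' measurableSet_Ioi fun y hy => ?_
        have hy0 : 0 < y := hy
        rw [hDge z y hy0, hW'e z y hy0, ← ENNReal.ofReal_mul (by positivity)]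
        refine (mul_le_mul' le_rfl (m_le_poisson hw0 hy0 (hpi z y hy0))).trans ?_
        rw [← ENNReal.ofReal_mul (hDg0 _)]
        refine ENNReal.ofReal_le_ofReal (le_of_eq ?_)
        field_simp
    _ = ENNReal.ofReal (2 * π / c) * ∫⁻ z, ∫⁻ y in Ioi (0 : ℝ),
          ENNReal.ofReal (y * (c * W' (z, y) * Dg (z, y))) := by
        rw [← lintegral_const_mul' _ _ ENNReal.ofReal_ne_top]
        refine lintegral_congr fun z => ?_
        rw [lintegral_const_mul' _ _ ENNReal.ofReal_ne_top]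
    _ ≤ ENNReal.ofReal (2 * π / c) * (7 * ((∫ x, f x ^ 2 * w x).toNNReal : ℝ≥0∞)) := by
        gcongr
    _ = _ := by
        have h1 : ∫⁻ x, ENNReal.ofReal (f x ^ 2 * w x) = ENNReal.ofReal (∫ x, f x ^ 2 * w x) := by
          rw [ofReal_integral_eq_lintegral_ofReal hh (Eventually.of_forall fun x => by
            have := hw0 x
            simp only [Pi.zero_apply]
            positivity)]
        rw [h1]
        have h2 : ENNReal.ofReal (2 * π / c) * 7 = ((Real.toNNReal (14 * π / c) : ℝ≥0) : ℝ≥0∞) := by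
          rw [show (7 : ℝ≥0∞) = ENNReal.ofReal 7 by simp, ← ENNReal.ofReal_mul (by positivity)]
          show ENNReal.ofReal _ = ENNReal.ofReal _
          congr 1
          ring
        rw [← mul_assoc, h2]
        rfl

end Pool.Agent.Q64.GL
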